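import Pool.Agent.H21.NiteckiDefs
import Pool.Agent.H21.NiteckiProof

open MeasureTheory Pool.Agent.H21.Nitecki

namespace Pool.Agent.Results.MP_ee56ef_an.ResiduesCollide

/-- There are `n ≥ 2` and positive integers `k₁, …, k_m`, none divisible by `n` (and without a
common factor), with exactly `n` distinct subsums and with an achievement set
`E(k₁, …, k_m; 1/n)` of positive Lebesgue measure, such that two distinct subsums are congruent
modulo `n`; so the residues of the subsums do not fill `{0, …, n-1}`.
(The witness is `n = 12` and `(1, 8, 16, 16)`.) -/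
theorem result :
    ∃ (n m : ℕ) (hm : 0 < m) (k : Fin m → ℕ),
      2 ≤ n ∧ (∀ i, 0 < k i) ∧ (∀ i, ¬ n ∣ k i) ∧ (subsums k).card = n ∧
      0 < volume (achievementSet (multigeometric hm k n)) ∧
      (∃ s ∈ subsums k, ∃ t ∈ subsums k, s ≠ t ∧ s ≡ t [MOD n]) ∧
      (subsums k).image (fun s => s % n) ≠ Finset.range n ∧
      Finset.univ.gcd k = 1 := by
  refine ⟨12, 4, by norm_num, kk, by norm_num, by decide, by decide, by decide, positive,
    ⟨0, by decide, 24, by decide, by decide, by decide⟩, by decide, by decide⟩

end Pool.Agent.Results.MP_ee56ef_an.ResiduesCollide
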